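import Pool.Agent.Helper57_C2.Stmts
import Pool.Agent.Helper20_PP.Rst

/-!
# Squad C2, row INU: the situation in `C(w)`
-/

open scoped BigOperators

noncomputable section

namespace Pool.Agent.PP.C2.H81

open Pool.Agent.Helper51_AWC Pool.Agent.Helper79_WRA Pool.Agent.PP Pool.Agent.PP.KF
open Pool.Agent.PP.K9 Pool.Agent.PP.C2

theorem inu (hEXB : ExbStmt) : InuStmt := by
  intro ℓ _ F _ hF G _ _ e V γ T hI w hw β hβ
  obtain ⟨β', -, -, htp, huniq, -⟩ := hEXB ℓ F hF G e V γ T hI w hw
  have hββ : β = β' := huniq β hβ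
  rw [← hββ] at htp
  have hVC : ∀ v ∈ V, v ∈ Cu w := by
    intro v hv
    rw [Subgroup.mem_centralizer_singleton_iff]
    exact hI.comm _ hv _ hw
  have hCC : Subgroup.centralizer (V : Set G) ≤ Cu w := by
    intro x hx
    rw [Subgroup.mem_centralizer_singleton_iff]
    exact (Subgroup.mem_centralizer_iff.1 hx w hw).symm
  have hcen : ∀ x : Cu w, x ∈ Subgroup.centralizer ((V.subgroupOf (Cu w) : Subgroup (Cu w)) :
      Set (Cu w)) ↔ (x : G) ∈ Subgroup.centralizer (V : Set G) := by
    intro x
    rw [Subgroup.mem_centralizer_iff, Subgroup.mem_centralizer_iff]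
    constructor
    · intro h v hv
      exact congrArg Subtype.val (h ⟨v, hVC v hv⟩ hv)
    · intro h v hv
      exact Subtype.ext (h v hv)
  have hbr : (fun t : Cu w => br V β t) = br (V.subgroupOf (Cu w)) (fun t : Cu w => β t) := by
    funext t
    unfold br
    by_cases ht : (t : G) ∈ Subgroup.centralizer (V : Set G)
    · rw [if_pos ht, if_pos ((hcen t).2 ht)]
    · rw [if_neg ht, if_neg (fun h => ht ((hcen t).1 h))]
  have hsup : ∀ t, t ∉ Cu w → br V β t = 0 := by
    intro t ht
    unfold br
    rw [if_neg (fun h => ht (hCC h))]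
  refine ⟨hβ.bk.blk, htp, ?_, ⟨?_, ?_⟩, ?_, ?_⟩
  · intro a ha b hb
    exact Subtype.ext (hI.comm _ ha _ hb)
  · intro x hx
    exact hI.gam.off _ fun h => hx ((hcen x).2 h)
  · let φ : Subgroup.centralizer ((V.subgroupOf (Cu w) : Subgroup (Cu w)) : Set (Cu w)) ≃*
        Subgroup.centralizer (V : Set G) :=
      { toFun := fun x => ⟨((x : Cu w) : G), (hcen _).1 x.2⟩
        invFun := fun y => ⟨⟨(y : G), hCC y.2⟩, (hcen _).2 y.2⟩
        left_inv := fun x => rfl
        right_inv := fun y => rfl
        map_mul' := fun x y => rfl }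
    exact H20.IsBlk_equiv φ hI.gam.blk
  · rw [← hbr, ← H20.restr_mul (Cu w) hsup, hβ.und]
  · ext t
    rw [Subgroup.mem_inf, Subgroup.mem_subgroupOf, hI.stb, Subgroup.mem_inf]
    apply and_congr
    · rw [Subgroup.mem_normalizer_iff, Subgroup.mem_normalizer_iff]
      constructor
      · intro h x
        exact h x
      · intro h x
        constructor
        · intro hx
          exact (h ⟨x, hVC x hx⟩).1 hx
        · intro hx
          have h1 : (t : G) * x * (t : G)⁻¹ ∈ Cu w := hVC _ hx
          have h2 : x ∈ Cu w := by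
            have h3 := (Cu w).mul_mem ((Cu w).mul_mem ((Cu w).inv_mem t.2) h1) t.2
            have h4 : (t : G)⁻¹ * ((t : G) * x * (t : G)⁻¹) * (t : G) = x := by group
            rwa [h4] at h3
          exact (h ⟨x, h2⟩).2 hx
    · constructor
      · intro h x
        exact h x
      · intro h x
        by_cases hx : x ∈ Cu w
        · exact h ⟨x, hx⟩
        · have h1 : x ∉ Subgroup.centralizer (V : Set G) := fun h => hx (hCC h)
          have h2 : (t : G) * x * (t : G)⁻¹ ∉ Subgroup.centralizer (V : Set G) := by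
            intro h3
            apply hx
            have h4 := (Cu w).mul_mem ((Cu w).mul_mem ((Cu w).inv_mem t.2) (hCC h3)) t.2
            have h5 : (t : G)⁻¹ * ((t : G) * x * (t : G)⁻¹) * (t : G) = x := by group
            rwa [h5] at h4
          rw [hI.gam.off _ h1, hI.gam.off _ h2]

end Pool.Agent.PP.C2.H81
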